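import Mathlib
import Pool.Agent.H969NR.Final
import Pool.Agent.H969RP.Refl

/-!
# Q1 is independent of ZFC (relative to a supercompact cardinal)

* If stationary families of countable sets reflect to countably closed sets of size at most the
  continuum (`Reflects`; this holds after the Levy collapse of a supercompact cardinal to `ω₂`), then
  the answer to Q1 is positive.
* If some regular `κ > 𝔠` has a non-reflecting stationary subset consisting of points of cofinality
  `ω` (this holds in `L`, and under `□_λ` for any `λ ≥ 𝔠`), then the answer to Q1 is negative.

Positive direction. Call a countable set `M` of points and continuous functions bad if the functions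
in `M` do not separate the closure of the points in `M`. If the bad sets are stationary, they reflect
to a set `N` of size at most `𝔠` which is closed enough for its functions to separate the closure of
its points; this closure `K_N` is Corson, and a point-countable separating family of functions on
`K_N`, each of which depends on countably many functions of `N`, gives a club of good countable
subsets of `N`, a contradiction. So almost all countable sets are good, and `X` is Corson compact by a
form of Bandlow's theorem.
-/

set_option autoImplicit false

namespace Pool.Agent.Results.MP_1c9258_gt.Independence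

open Cardinal Order Set Pool.Agent.H969RP

/-- the positive answer to Q1 -/
def PositiveAnswer : Prop :=
  ∀ (X : Type) [TopologicalSpace X] [CompactSpace X] [T2Space X],
    (∀ A : Set X, Cardinal.mk A ≤ Cardinal.continuum →
      ∃ (Γ : Type) (f : ↥(closure A) → (Γ → ℝ)),
        Topology.IsEmbedding f ∧ ∀ x, (Function.support (f x)).Countable) →
    ∃ (Γ : Type) (f : X → (Γ → ℝ)),
      Topology.IsEmbedding f ∧ ∀ x, (Function.support (f x)).Countable

/-- there is a regular cardinal above the continuum with a non-reflecting stationary set of points
of countable cofinality -/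
def NonReflecting : Prop :=
  ∃ κ : Cardinal.{0}, κ.IsRegular ∧ continuum < κ ∧ ∃ S : Set κ.ord.ToType,
    IsStationary S ∧ (∀ α ∈ S, Order.cof (Iio α) = ℵ₀) ∧
    ∀ δ : κ.ord.ToType, ℵ₀ < Order.cof (Iio δ) → ¬ IsStationary {x : Iio δ | x.1 ∈ S}

theorem result : (Reflects → PositiveAnswer) ∧ (NonReflecting → ¬ PositiveAnswer) := by
  refine ⟨fun hR X _ _ _ h => yes_of_reflects hR X h, ?_⟩
  rintro ⟨κ, hκ, hc, S, hS, hcof, hnr⟩ hpos
  obtain ⟨X, _, _, _, hsmall, hnot⟩ := Pool.Agent.H969NR.main_exists κ hκ
    (Cardinal.aleph0_lt_continuum.trans hc) S hS hcof hnr
  obtain ⟨Γ, f, hf, hsupp⟩ := hpos X (fun A hA => by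
    obtain ⟨Γ, f, h1, h2, h3, h4⟩ := hsmall A (lt_of_le_of_lt hA hc)
    have : CompactSpace ↥(closure A) := isCompact_iff_compactSpace.1 isClosed_closure.isCompact
    exact ⟨Γ, f, (h1.isClosedEmbedding h2).isEmbedding, fun x => (h3 x).countable⟩)
  exact hnot Γ f hf.continuous hf.injective hsupp

end Pool.Agent.Results.MP_1c9258_gt.Independence
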