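import Mathlib
import Pool.Agent.H969NR.Small2

/-!
# A positive answer implies stationary reflection above the continuum

Let `κ` be an uncountable regular cardinal and let `S ⊆ κ` be a stationary set of points of
cofinality `ω` which does not reflect. For `α ∈ S` let `η α` be a cofinal subset of `α` of order type
`ω`. Let `X` be the one-point compactification of the space with isolated points `ξ < κ` and points
`p α` (`α ∈ S`) whose neighbourhoods contain `p α` and a tail of `η α`. Since `S` does not reflect,
all initial segments of the ladder system can be made disjoint by removing finite sets; hence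
the closures of all subsets of `X` of size less than `κ` are uniform Eberlein compact (they embed
in `{0,1}^Γ` with supports of size at most two). A pressing down argument shows that `X` has no
continuous injection into a `Σ`-product of real lines, thus `X` is not Corson compact.

If `κ > 𝔠`, this is a counterexample to Q1. So a positive answer to Q1 implies that all stationary
sets of points of cofinality `ω` in regular cardinals `κ > 𝔠` reflect; this fails for example in `L`
(and whenever `□_λ` holds for some `λ ≥ 𝔠`), so that Q1 cannot have a positive answer in ZFC.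
-/

set_option autoImplicit false

namespace Pool.Agent.Results.MP_1c9258_gt.YesGivesReflection

open Cardinal Order Set

theorem result (κ : Cardinal.{0}) (hκ : κ.IsRegular) (hκ0 : ℵ₀ < κ)
    (h : ∀ (X : Type) [TopologicalSpace X] [CompactSpace X] [T2Space X],
      (∀ A : Set X, Cardinal.mk A < κ →
        ∃ (Γ : Type) (f : ↥(closure A) → (Γ → ℝ)), Topology.IsEmbedding f ∧
          (∀ x, (Function.support (f x)).encard ≤ 2) ∧ ∀ x γ, f x γ = 0 ∨ f x γ = 1) →
      ∃ (Γ : Type) (f : X → (Γ → ℝ)),
        Topology.IsEmbedding f ∧ ∀ x, (Function.support (f x)).Countable)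
    (S : Set κ.ord.ToType) (hS : IsStationary S) (hcof : ∀ α ∈ S, Order.cof (Iio α) = ℵ₀) :
    ∃ δ : κ.ord.ToType, ℵ₀ < Order.cof (Iio δ) ∧ IsStationary {x : Iio δ | x.1 ∈ S} := by
  by_contra hcon
  push Not at hcon
  obtain ⟨X, _, _, _, hsmall, hnot⟩ := Pool.Agent.H969NR.main_exists2 κ hκ hκ0 S hS hcof hcon
  obtain ⟨Γ, f, hf, hsupp⟩ := h X (fun A hA => by
    obtain ⟨Γ, f, h1, h2, h3, h4⟩ := hsmall A hA
    have : CompactSpace ↥(closure A) := isCompact_iff_compactSpace.1 isClosed_closure.isCompact
    exact ⟨Γ, f, (h1.isClosedEmbedding h2).isEmbedding, h3, h4⟩)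
  exact hnot Γ f hf.continuous hf.injective hsupp

end Pool.Agent.Results.MP_1c9258_gt.YesGivesReflection
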